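import Pool.Agent.V1184.PI.Final

/-!
Permutation-invariant qubit codes: the formula `n_min(t) = 3 t^2 + 3 t + 1` fails at `t = 4`, since
there is a permutation-invariant qubit code on 59 qubits correcting 4 errors.
-/

namespace Pool.Agent.Results.MP_901209_mp.PICodeFiftyNine

open Pool.Agent.V1184.PI

/-- Some permutation-invariant qubit code of block length `59` corrects `4` errors, whereas
`3 * 4 ^ 2 + 3 * 4 + 1 = 61`; so it is not true that `n_min(t) = 3 t^2 + 3 t + 1` for all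
`t ≥ 1`. -/
theorem result :
    (∃ α β : Fin (59 + 1) → ℂ, Corrects 59 4 α β) ∧ nmin 4 < 3 * 4 ^ 2 + 3 * 4 + 1 ∧
      ¬ ∀ t : ℕ, 1 ≤ t → nmin t = 3 * t ^ 2 + 3 * t + 1 := by
  have h1 : nmin 4 ≤ 59 := Nat.sInf_le hasCode_59_4
  refine ⟨hasCode_59_4, by omega, ?_⟩
  intro h
  have := h 4 (by norm_num)
  omega

end Pool.Agent.Results.MP_901209_mp.PICodeFiftyNine
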